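import Pool.Agent.N903.ED.Defs
import Pool.Agent.N903.ED.EC
import Pool.Agent.N903.ED.Str2

/-!
# The relations between elliptic curves over number fields on the edge of absolute convergence

`E_j`, `j = 1, …, n`, are elliptic curves over arbitrary number fields `K_j`.  For most number fields
a continuation of `L(E_j, s)` across any point of the edge `Re s = 3/2` of the half-plane of absolute
convergence is not known.  The theorem describes completely and without any hypothesis which values
the functions `log L(E_j, s)` take simultaneously at the edge: the boundary values exist outside a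
set of Hausdorff dimension `0`, and the only relations between them (and the phases `p^{-iτ}`) are
the linear ones that come from bounded combinations `∑_j u_j log L(E_j, s + i h_j)`; these extend
continuously to the closed half-plane.

The definitions are in `Pool.Agent.N903.ED.Defs`: `logL W V` is the logarithm of the Euler product
over a set `V` of primes `v ∤ 6Δ` (for example all of them), `comb` the combination,
`IsBoundedComb` its boundedness for `Re s > 3/2`, `primeCoeff` the sum `A(p)` of `a_v / √p` over the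
`v ∈ V` of norm `p`, `edgePoint τ = 3/2 + iτ`, and `angle τ C` an angle with this vertex.
-/

set_option autoImplicit false

namespace Pool.Agent.Results.MP_bf61d2_nt.EdgeRelations

open NumberField IsDedekindDomain Filter Topology MeasureTheory Pool.Agent.N903.ED

/-- **The relations on the edge.**  Let `E_1, …, E_n` be elliptic curves over number fields
`K_1, …, K_n`, `V_j` a set of primes of `K_j` of good reduction not dividing `6`, and `h_j` real.
There is a set `N` of real numbers of Hausdorff dimension `0` with the following properties.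

* For `τ ∉ N` the function `log L_{V_j}(E_j, s)` has a limit `λ_j(τ)` at `3/2 + i(τ + h_j)` in every
  angle in the half-plane `Re s > 3/2`.
* A combination `∑_j u_j log L_{V_j}(E_j, s + i h_j)` is bounded for `Re s > 3/2` if and only if
  `∑_p |∑_j u_j A_j(p) p^{-i h_j}| / p` converges, and then it extends to a continuous function
  `F_u` on the closed half-plane `Re s ≥ 3/2`.
* For every `z ∈ ℂⁿ` and real `τ₀`: one has `∑_j u_j z_j = F_u(3/2 + iτ₀)` for all bounded
  combinations `u` if and only if for all `x` and `ε > 0` the set of the `τ` with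
  `|λ_j(τ) - z_j| < ε` for all `j` and `|p^{-iτ} - p^{-iτ₀}| < ε` for all primes `p < x` has
  positive lower density.

For example, if `u = 0` is the only bounded combination, the vectors `(λ_1(τ), …, λ_n(τ))` come near
every point of `ℂⁿ`. -/
theorem result {n : ℕ} (K : Fin n → Type) [∀ j, Field (K j)] [∀ j, NumberField (K j)]
    (W : ∀ j, WeierstrassCurve (𝓞 (K j))) (V : ∀ j, Set (HeightOneSpectrum (𝓞 (K j))))
    (hV : ∀ j, ∀ v ∈ V j, IsGood (W j) v) (h : Fin n → ℝ) :
    ∃ N : Set ℝ, dimH N = 0 ∧ ∃ lam : Fin n → ℝ → ℂ, ∃ F : (Fin n → ℂ) → ℂ → ℂ,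
      (∀ τ, τ ∉ N → ∀ j, ∀ C : ℝ, Tendsto (logL (W j) (V j))
        (𝓝[angle (τ + h j) C] (edgePoint (τ + h j))) (𝓝 (lam j τ))) ∧
      (∀ u : Fin n → ℂ, IsBoundedComb W V h u ↔ Summable fun p : ℕ => if p.Prime then
        ‖∑ j, u j * primeCoeff (W j) (V j) p * (p : ℂ) ^ (-(h j * Complex.I))‖ / p else 0) ∧
      (∀ u : Fin n → ℂ, IsBoundedComb W V h u →
        ContinuousOn (F u) {s | (3 / 2 : ℝ) ≤ s.re} ∧
          ∀ s : ℂ, (3 / 2 : ℝ) < s.re → F u s = comb W V h u s) ∧
      ∀ (z : Fin n → ℂ) (τ₀ : ℝ),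
        (∀ u : Fin n → ℂ, IsBoundedComb W V h u → ∑ j, u j * z j = F u (edgePoint τ₀)) ↔
        ∀ (x : ℕ) (ε : ℝ), 0 < ε → ∃ δ : ℝ, 0 < δ ∧ ∃ T₀ : ℝ, ∀ T ≥ T₀, ENNReal.ofReal (δ * T) ≤
          volume {τ : ℝ | τ ∈ Set.Icc 0 T ∧ τ ∉ N ∧ (∀ j, ‖lam j τ - z j‖ < ε) ∧
            ∀ p < x, p.Prime →
              ‖(p : ℂ) ^ (-(τ * Complex.I)) - (p : ℂ) ^ (-(τ₀ * Complex.I))‖ < ε} := by
  classical
  set D : ℝ := ∑ j, 2 * (Module.finrank ℚ (K j) : ℝ) with hD
  have hcD : ∀ j p, ‖cf (N := Pool.Agent.H921R2.TatePole.nm) (an' (W j) (V j)) p‖ ≤ D := by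
    intro j p
    refine (cf_bound (hV j) p).trans ?_
    exact Finset.single_le_sum (f := fun j => 2 * (Module.finrank ℚ (K j) : ℝ))
      (fun _ _ => by positivity) (Finset.mem_univ j)
  set ρ : Fin n → ℝ := fun j => ∑' v : HeightOneSpectrum (𝓞 (K j)),
    (6 * (Pool.Agent.H921R2.TatePole.nm v : ℝ) ^ (-2 : ℝ) +
      2 * (if (Pool.Agent.H921R2.TatePole.nm v).Prime then (0 : ℝ) else
        1 / Pool.Agent.H921R2.TatePole.nm v)) with hρ
  have hρ0 : ∀ j, 0 ≤ ρ j := fun j => tsum_nonneg fun v => by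
    split_ifs <;> positivity
  have hrb : ∀ j z, 0 ≤ z.re → ‖rm Pool.Agent.H921R2.TatePole.nm (an' (W j) (V j))
      (ln' (W j) (V j)) z‖ ≤ ∑ j, ρ j := by
    intro j z hz
    refine (rm_norm Pool.Agent.W350.EdgeNF.hN Pool.Agent.W350.EdgeNF.hpow
      Pool.Agent.W350.EdgeNF.hlow (an' (W j) (V j)) 2 (norm_an' (hV j)) (ln' (W j) (V j)) 6
      (fun v z hz => ln_rem (hV j) v z hz) z hz).trans ?_
    exact Finset.single_le_sum (f := ρ) (fun j _ => hρ0 j) (Finset.mem_univ j)
  obtain ⟨N, hN, lam, F, h1, h2, h3, h4⟩ := structure_thm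
    (fun j => cf (N := Pool.Agent.H921R2.TatePole.nm) (an' (W j) (V j))) D hcD
    (fun j => rm Pool.Agent.H921R2.TatePole.nm (an' (W j) (V j)) (ln' (W j) (V j))) (∑ j, ρ j) hrb
    (fun j => rm_continuousOn Pool.Agent.W350.EdgeNF.hN Pool.Agent.W350.EdgeNF.hpow
      Pool.Agent.W350.EdgeNF.hlow (an' (W j) (V j)) 2 (norm_an' (hV j)) (ln' (W j) (V j)) 6
      (fun v z hz => ln_rem (hV j) v z hz) (ln_cont (hV j)))
    (fun j => rm_phase Pool.Agent.W350.EdgeNF.hN Pool.Agent.W350.EdgeNF.hpow
      Pool.Agent.W350.EdgeNF.hlow (an' (W j) (V j)) 2 (norm_an' (hV j)) (ln' (W j) (V j)) 6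
      (fun v z hz => ln_rem (hV j) v z hz) (ln_phase (hV j)))
    (3 / 2) (fun j => logL (W j) (V j)) (fun j s hs => logL_eq (hV j) s hs) h
  have hph : ∀ p : ℕ, p.Prime → ∀ τ : ℝ, (p : ℂ) ^ (-(τ * Complex.I)) = ph p τ :=
    fun p hp τ => ph_eq p hp.one_le τ
  refine ⟨N, hN, lam, F, fun τ hτ j C => h1 τ hτ j C, fun u => ?_, h2, fun z τ₀ => ?_⟩
  · refine (h3 u).trans (summable_congr fun p => ?_)
    split_ifs with hp
    · congr 2
      unfold bb
      refine Finset.sum_congr rfl fun j _ => ?_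
      unfold Pool.Agent.W350.Edge.tw
      beta_reduce
      rw [cf_eq (W j) (V j) p hp, hph p hp (h j), mul_assoc]
      rfl
    · rfl
  · refine (h4 z τ₀).trans ?_
    refine forall_congr' fun x => forall_congr' fun ε => forall_congr' fun hε => ?_
    refine exists_congr fun δ => and_congr_right fun hδ => exists_congr fun T₀ =>
      forall_congr' fun T => forall_congr' fun hT => ?_
    have hset : {τ : ℝ | τ ∈ Set.Icc 0 T ∧ τ ∉ N ∧ (∀ j, ‖lam j τ - z j‖ < ε) ∧
            ∀ p < x, p.Prime → ‖ph p τ - ph p τ₀‖ < ε} =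
        {τ : ℝ | τ ∈ Set.Icc 0 T ∧ τ ∉ N ∧ (∀ j, ‖lam j τ - z j‖ < ε) ∧
            ∀ p < x, p.Prime →
              ‖(p : ℂ) ^ (-(τ * Complex.I)) - (p : ℂ) ^ (-(τ₀ * Complex.I))‖ < ε} := by
      ext τ
      simp only [Set.mem_ofPred_eq]
      refine and_congr_right fun _ => and_congr_right fun _ => and_congr_right fun _ => ?_
      refine forall_congr' fun p => forall_congr' fun _ => forall_congr' fun hp => ?_
      rw [hph p hp, hph p hp]
    rw [hset]

end Pool.Agent.Results.MP_bf61d2_nt.EdgeRelations
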