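import Mathlib
import Pool.Agent.N534.EC.Ser

/-!
# Random elliptic curves over an arbitrary number field near the whole line `Re s = 3/2`

`K` is an arbitrary number field with an integral basis `ω_i`, `i ∈ I`, and `A`, `B` are any polynomials in finitely many
variables `u_j`, `j ∈ J`, with coefficients in `𝓞 K`. The theorem is about the curves

`E_c : y² = x³ + A(u) x + B(u) + t`, `t = ∑ t_i ω_i`,

where `c = (t, u)` runs through the integer vectors with coordinates of absolute value at most `H`. Examples: all the curves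
`y² = x³ + a x + b`, where `a` and `b` are algebraic integers with coordinates of absolute value at most `H`
(`u` = the coordinates of `a`, `A(u) = ∑ u_i ω_i`, `B = 0`), and, with `J` empty, the curves `y² = x³ + a x + b + t`
for fixed `a`, `b`.

For a general number field `K` the continuation of `L(E/K, s)` to the line `Re s = 3/2` is not known. The
theorem says that on the average over the curves nothing prevents it: the mean over the curves of the square of the
supremum of `|log L(E_c/K, s)|` over the rectangle `3/2 + 1/log H ≤ Re s ≤ 5/2`, `|Im s| ≤ T` is at most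
`C (1 + T)`, where `C` depends neither on `H` nor on `T`; so outside a proportion `δ` of the curves `L` is bounded from
above and from below by `exp (± (C (1 + T) / δ) ^ (1/2))` in the whole rectangle. (The trivial bound for `|log L|` at the
distance `ε` from the line is `2 [K : ℚ] log (1/ε) + O(1)`; a zero or a pole on the line makes `|log L|` as large as
`log (1/ε)`.) Here `log L` is the logarithm given by the Euler product.

Proof. Up to `O(1)` the logarithm is, in the mean over the curves, the Dirichlet polynomial of the normalised traces at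
the primes of degree one above the rational primes `p ≤ H^{1/4}`: the bound of Hasse at all primes prime to `6`,
good or bad, deals with the primes of higher degree. The traces at `p` are functions of `c` modulo `p` with mean zero, by
the average over `t`. The second moment of the polynomial is bounded on and to the left of the line, and the supremum
is bounded by Cauchy's formula on circles.
-/

set_option autoImplicit false

open NumberField IsDedekindDomain

namespace Pool.Agent.Results.MP_bf61d2_nt.RandomCurvesEdgeLine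

section
variable {K : Type} [Field K] [NumberField K]

/-- `M v` is, for every `v`, an integral model of `E` with discriminant minimal at `v`. -/
def MinimalModels (E : WeierstrassCurve K) (M : HeightOneSpectrum (𝓞 K) → WeierstrassCurve (𝓞 K)) : Prop :=
  ∀ v : HeightOneSpectrum (𝓞 K),
    (∃ C : WeierstrassCurve.VariableChange K, C • E = (M v).map (algebraMap (𝓞 K) K)) ∧
    ∀ W : WeierstrassCurve (𝓞 K),
      (∃ C : WeierstrassCurve.VariableChange K, C • E = W.map (algebraMap (𝓞 K) K)) →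
        ∀ n : ℕ, (M v).Δ ∈ v.asIdeal ^ n → W.Δ ∈ v.asIdeal ^ n

open Classical in
/-- The polynomial `1 - a_v T + q_v T²`, or `1 - a_v T` at a prime of bad reduction, at `T = q_v^{-s}`; here
`a_v` is `q_v` minus the number of the affine points of the reduction of the model `M v`. -/
noncomputable def factor (M : HeightOneSpectrum (𝓞 K) → WeierstrassCurve (𝓞 K)) (s : ℂ)
    (v : HeightOneSpectrum (𝓞 K)) : ℂ :=
  1 - ((((Ideal.absNorm v.asIdeal : ℕ) : ℤ) -
          ((Nat.card {p : (𝓞 K ⧸ v.asIdeal) × (𝓞 K ⧸ v.asIdeal) //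
            p.2 ^ 2 + Ideal.Quotient.mk v.asIdeal (M v).a₁ * p.1 * p.2
              + Ideal.Quotient.mk v.asIdeal (M v).a₃ * p.2
            = p.1 ^ 3 + Ideal.Quotient.mk v.asIdeal (M v).a₂ * p.1 ^ 2
              + Ideal.Quotient.mk v.asIdeal (M v).a₄ * p.1
              + Ideal.Quotient.mk v.asIdeal (M v).a₆} : ℕ) : ℤ) : ℤ) : ℂ)
          * ((Ideal.absNorm v.asIdeal : ℕ) : ℂ) ^ (-s)
      + (if (M v).Δ ∈ v.asIdeal then (0 : ℂ) else 1)
          * ((Ideal.absNorm v.asIdeal : ℕ) : ℂ) ^ (1 - 2 * s)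

/-- `L(E/K, s)`. -/
noncomputable def LSeries (M : HeightOneSpectrum (𝓞 K) → WeierstrassCurve (𝓞 K)) (s : ℂ) : ℂ :=
  ∏' v : HeightOneSpectrum (𝓞 K), (factor M s v)⁻¹

/-- The logarithm of `L(E/K, s)` given by the Euler product. -/
noncomputable def logL (M : HeightOneSpectrum (𝓞 K) → WeierstrassCurve (𝓞 K)) (s : ℂ) : ℂ :=
  ∑' v : HeightOneSpectrum (𝓞 K), -Complex.log (factor M s v)

variable {I J : Type} [Fintype I] [Fintype J] [DecidableEq I] [DecidableEq J]

/-- The curve `y² = x³ + A(u) x + B(u) + ∑ t_i ω_i`, for `c = (t, u)`. -/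
noncomputable def curve (ω : Module.Basis I ℤ (𝓞 K)) (A B : MvPolynomial J (𝓞 K)) (c : I ⊕ J → ℤ) :
    WeierstrassCurve K where
  a₁ := 0
  a₂ := 0
  a₃ := 0
  a₄ := (MvPolynomial.eval (fun j => ((c (Sum.inr j) : ℤ) : 𝓞 K)) A : 𝓞 K)
  a₆ := (MvPolynomial.eval (fun j => ((c (Sum.inr j) : ℤ) : 𝓞 K)) B +
    ∑ i, ((c (Sum.inl i) : ℤ) : 𝓞 K) * ω i : 𝓞 K)

/-- The integer vectors with coordinates of absolute value at most `H`. -/
noncomputable def box (ι : Type) [Fintype ι] [DecidableEq ι] (H : ℕ) : Finset (ι → ℤ) :=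
  Fintype.piFinset fun _ => Finset.Icc (-(H : ℤ)) H

/-- The rectangle `3/2 + 1/log H ≤ Re s ≤ 5/2`, `|Im s| ≤ T`. -/
def rectangle (H : ℕ) (T : ℝ) : Set ℂ :=
  {s | 3 / 2 + 1 / Real.log H ≤ s.re ∧ s.re ≤ 5 / 2 ∧ |s.im| ≤ T}

/-- **Random elliptic curves over a number field near the line `Re s = 3/2`.** -/
theorem result (ω : Module.Basis I ℤ (𝓞 K)) (A B : MvPolynomial J (𝓞 K)) :
    (∀ (M : HeightOneSpectrum (𝓞 K) → WeierstrassCurve (𝓞 K)) (s : ℂ), 3 / 2 < s.re →
      LSeries M s = Complex.exp (logL M s)) ∧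
    ∃ C : ℝ, 0 < C ∧ ∀ H : ℕ, 2 ≤ H → ∀ T : ℝ, 0 ≤ T →
      (∀ S ⊆ box (I ⊕ J) H, ∀ (M : (I ⊕ J → ℤ) → HeightOneSpectrum (𝓞 K) → WeierstrassCurve (𝓞 K))
        (s : (I ⊕ J → ℤ) → ℂ), (∀ c ∈ S, MinimalModels (curve ω A B c) (M c)) →
        (∀ c ∈ S, s c ∈ rectangle H T) →
        ∑ c ∈ S, ‖logL (M c) (s c)‖ ^ 2 ≤ C * (1 + T) * (box (I ⊕ J) H).card) ∧
      (∀ δ : ℝ, 0 < δ → ∃ X ⊆ box (I ⊕ J) H, (X.card : ℝ) ≤ δ * (box (I ⊕ J) H).card ∧
        ∀ c ∈ box (I ⊕ J) H \ X, ∀ M : HeightOneSpectrum (𝓞 K) → WeierstrassCurve (𝓞 K),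
          MinimalModels (curve ω A B c) M → ∀ s ∈ rectangle H T,
            ‖logL M s‖ ≤ Real.sqrt (C * (1 + T) / δ)) := by
  have hlog : ∀ (M : HeightOneSpectrum (𝓞 K) → WeierstrassCurve (𝓞 K)) (s : ℂ),
      logL M s = ∑' v : HeightOneSpectrum (𝓞 K), Pool.Agent.N534.EC.ll M (s - 3 / 2) v := by
    intro M s
    have e : (3 / 2 + (s - 3 / 2) : ℂ) = s := by ring
    unfold Pool.Agent.N534.EC.ll
    rw [e]
    rfl
  refine ⟨?_, ?_⟩
  · intro M s hs
    have h1 := Pool.Agent.N534.EC.exp_ll M (u := s - 3 / 2) (by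
      have : (s - 3 / 2 : ℂ).re = s.re - 3 / 2 := by simp
      rw [this]
      linarith)
    have e : (3 / 2 + (s - 3 / 2) : ℂ) = s := by ring
    rw [e, ← hlog] at h1
    exact h1
  · obtain ⟨C, hC, h⟩ := Pool.Agent.N534.EC.majorant_two ω A B
    refine ⟨C, hC, fun H hH T hT => ?_⟩
    obtain ⟨M', hM0, hM1, hM2⟩ := h H hH T hT
    have hlogH : 0 < Real.log H := Real.log_pos (by exact_mod_cast (by omega : 1 < H))
    have hone : ∀ (c : I ⊕ J → ℤ) (M : HeightOneSpectrum (𝓞 K) → WeierstrassCurve (𝓞 K)),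
        MinimalModels (curve ω A B c) M → ∀ s ∈ rectangle H T, ‖logL M s‖ ^ 2 ≤ M' c := by
      intro c M hM s hs
      obtain ⟨h1, h2, h3⟩ := hs
      rw [hlog]
      have e1 : (s - 3 / 2 : ℂ).re = s.re - 3 / 2 := by simp
      have e2 : (s - 3 / 2 : ℂ).im = s.im := by simp
      refine hM2 c M hM (s - 3 / 2) ?_ ?_ ?_
      · rw [e1]; linarith
      · rw [e1]; linarith
      · rw [e2]; exact h3
    have hB : (0 : ℝ) < (2 * H + 1 : ℝ) ^ Fintype.card (I ⊕ J) := by positivity
    have hcard : ((box (I ⊕ J) H).card : ℝ) = (2 * H + 1 : ℝ) ^ Fintype.card (I ⊕ J) :=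
      Pool.Agent.Y722.HS.card_box H
    have hsum : ∑ c ∈ box (I ⊕ J) H, M' c ≤ C * (1 + T) * (box (I ⊕ J) H).card := by
      have e3 : Pool.Agent.Y722.HS.EB H M' = (∑ c ∈ box (I ⊕ J) H, M' c) /
          (2 * H + 1 : ℝ) ^ Fintype.card (I ⊕ J) := rfl
      rw [e3, div_le_iff₀ hB, ← hcard] at hM1
      exact hM1
    refine ⟨fun S hS M s hM hs => ?_, fun δ hδ => ?_⟩
    · calc _ ≤ ∑ c ∈ S, M' c := Finset.sum_le_sum fun c hc => hone c (M c) (hM c hc) (s c) (hs c hc)
        _ ≤ ∑ c ∈ box (I ⊕ J) H, M' c := Finset.sum_le_sum_of_subset_of_nonneg hS fun c _ _ => hM0 c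
        _ ≤ _ := hsum
    · have hCT : 0 < C * (1 + T) := by positivity
      refine ⟨(box (I ⊕ J) H).filter (fun c => C * (1 + T) / δ < M' c), Finset.filter_subset _ _, ?_, ?_⟩
      · have h1 : (((box (I ⊕ J) H).filter (fun c => C * (1 + T) / δ < M' c)).card : ℝ) *
            (C * (1 + T) / δ) ≤ ∑ c ∈ (box (I ⊕ J) H).filter (fun c => C * (1 + T) / δ < M' c), M' c := by
          rw [← nsmul_eq_mul]
          exact Finset.card_nsmul_le_sum _ _ _ fun c hc => (Finset.mem_filter.mp hc).2.le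
        have h2 : ∑ c ∈ (box (I ⊕ J) H).filter (fun c => C * (1 + T) / δ < M' c), M' c ≤
            ∑ c ∈ box (I ⊕ J) H, M' c :=
          Finset.sum_le_sum_of_subset_of_nonneg (Finset.filter_subset _ _) fun c _ _ => hM0 c
        have h3 := (h1.trans h2).trans hsum
        rw [mul_div_assoc', div_le_iff₀ hδ] at h3
        have h4 : (C * (1 + T)) * (((box (I ⊕ J) H).filter (fun c => C * (1 + T) / δ < M' c)).card : ℝ) ≤
            (C * (1 + T)) * (δ * (box (I ⊕ J) H).card) := by linarith
        exact le_of_mul_le_mul_left h4 hCT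
      · intro c hc M hM s hs
        rw [Finset.mem_sdiff, Finset.mem_filter, not_and, not_lt] at hc
        exact Real.le_sqrt_of_sq_le ((hone c M hM s hs).trans (hc.2 hc.1))

end

end Pool.Agent.Results.MP_bf61d2_nt.RandomCurvesEdgeLine
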