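import Pool.Agent.N842.TQ.Go

/-!
# The L-functions of almost all elliptic curves over a number field, and of the odd cohomology of almost all products of powers of
superelliptic curves, and their tensor products with arbitrary motives: the Euler products to the right of the critical line

Let `K` be a number field, let `C_c : Y ^ l = f_c(X)` (`c < N`) be curves over `K` with monic polynomials `f_c` of degree `D` prime to
the prime number `l`, and let `V = ∏ C_c ^ (n_c)` with `n_c ≤ D`.  The coefficients of the `f_c` are linear combinations of the elements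
`ω_j` of `𝓞 K` with integral coefficients which arise from arbitrary integers by changing a few digits.  For `l = 2`, `D = 3`, `N = 1`,
`n = 1` these are the elliptic curves `E : Y ^ 2 = X ^ 3 + u_2 X ^ 2 + u_1 X + u_0` over `K` and `d = 1` gives `L(E / K, s + 1 / 2)`;
the powers `E ^ 2`, `E ^ 3` give for `d = 3` the L-function of the symmetric cube.

For odd `d` the L-function `L(H ^ d (V), s + d / 2)` should be entire and different from `0` for `Re s > 1 / 2` (which is unknown for
`Re s ≤ 1` except for special curves), and for almost all curves the same should be true for the L-functions of the tensor products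
`H ^ d (V) ⊗ M` with given motives `M` over `K`, for instance for all the twists of `L(E / K, s)` by Artin representations and for the
Rankin-Selberg L-functions of `E` and given elliptic curves `E'`.  Here a motive `M` enters only through the numbers `ψ v k`, the traces
of the `k`-th powers of the normalised Frobenius automorphisms at the prime ideals `v`, and these numbers can be arbitrary.
-/

set_option autoImplicit false

namespace Pool.Agent.Results.MP_bf61d2_nt.RightOfTheCriticalLine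

open Finset NumberField IsDedekindDomain

/-- The elements `∑ m_(i,j) ω_j` of `𝓞 K`. -/
def coeff {R : Type} [CommRing R] {g D : ℕ} (ω : Fin g → R) (m : Fin (D * g) → ℕ) (i : Fin D) : R :=
  ∑ j, (m (finProdFinEquiv (i, j)) : R) * ω j

/-- The number of the solutions of `Y ^ l = X ^ D + u (D - 1) X ^ (D - 1) + ... + u 0` in the field `F`. -/
noncomputable def points (F : Type) [Field F] (l : ℕ) {D : ℕ} (u : Fin D → F) : ℕ :=
  Nat.card {P : F × F // P.2 ^ l = P.1 ^ D + ∑ i, u i * P.1 ^ (i : ℕ)}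

/-- The characteristic of `F` is not `l` and the polynomial `X ^ D + u (D - 1) X ^ (D - 1) + ... + u 0` over `F` is separable, so that the
curve `C : Y ^ l = X ^ D + u (D - 1) X ^ (D - 1) + ... + u 0` is smooth. -/
def Smooth (F : Type) [Field F] (l : ℕ) {D : ℕ} (u : Fin D → F) : Prop :=
  (l : F) ≠ 0 ∧ (Polynomial.X ^ D + ∑ i, Polynomial.C (u i) * Polynomial.X ^ (i : ℕ)).Separable

open Classical in
/-- For a field `F` with `q` elements the number `(q + 1 - #C(F)) / q ^ (1 / 2)` (there is one point at infinity), that is, the trace of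
the normalised Frobenius automorphism on `H ^ 1 (C)`; `0` if the curve is not smooth. -/
noncomputable def a (F : Type) [Field F] (l : ℕ) {D : ℕ} (u : Fin D → F) : ℝ :=
  if Smooth F l u then ((Nat.card F : ℝ) + 1 - ((points F l u : ℝ) + 1)) / Real.sqrt (Nat.card F) else 0

/-- The extension of degree `k` of the finite field `F`: the splitting field of `X ^ (q ^ k) - X`, where `q` is the number of the
elements of `F`. -/
def Ext (F : Type) [Field F] (k : ℕ) : Type := (Polynomial.X ^ (Nat.card F ^ k) - Polynomial.X : Polynomial F).SplittingField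

noncomputable instance (F : Type) [Field F] (k : ℕ) : Field (Ext F k) :=
  inferInstanceAs (Field (Polynomial.X ^ (Nat.card F ^ k) - Polynomial.X : Polynomial F).SplittingField)

noncomputable instance (F : Type) [Field F] (k : ℕ) : Algebra F (Ext F k) :=
  inferInstanceAs (Algebra F (Polynomial.X ^ (Nat.card F ^ k) - Polynomial.X : Polynomial F).SplittingField)

section
variable {K : Type} [Field K] [NumberField K]

/-- The residue field at the prime ideal `v`. -/
def Residue (v : HeightOneSpectrum (𝓞 K)) : Type := 𝓞 K ⧸ v.asIdeal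

noncomputable instance (v : HeightOneSpectrum (𝓞 K)) : Field (Residue v) :=
  haveI : v.asIdeal.IsMaximal := v.isMaximal
  Ideal.Quotient.field v.asIdeal

/-- The reduction modulo `v`. -/
noncomputable def reduction (v : HeightOneSpectrum (𝓞 K)) : 𝓞 K →+* Residue v := Ideal.Quotient.mk v.asIdeal

/-- The trace of the `k`-th power of the normalised Frobenius automorphism at `v` on `H ^ 1` of the curve with the coefficients `u`. -/
noncomputable def t (l k : ℕ) (v : HeightOneSpectrum (𝓞 K)) {D : ℕ} (u : Fin D → 𝓞 K) : ℝ :=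
  a (Ext (Residue v) k) l (fun i => algebraMap (Residue v) (Ext (Residue v) k) (reduction v (u i)))

/-- The reductions of the curves with the coefficients `u c` modulo `v` are smooth. -/
def Good (l : ℕ) (v : HeightOneSpectrum (𝓞 K)) {N D : ℕ} (u : Fin N → Fin D → 𝓞 K) : Prop :=
  ∀ c, Smooth (Residue v) l (fun i => reduction v (u c i))

/-- The trace of the `k`-th power of the normalised Frobenius automorphism at `v` on `H ^ d (V)` for the product `V` of the powers `n c`
of the curves with the coefficients `u c`, by the formula of Künneth. -/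
noncomputable def trace {N : ℕ} (n : Fin N → ℕ) (l d k : ℕ) (v : HeightOneSpectrum (𝓞 K)) {D : ℕ} (u : Fin N → Fin D → 𝓞 K) : ℝ :=
  (∏ c, (1 + Polynomial.C (t l k v (u c)) * Polynomial.X + Polynomial.X ^ 2 : Polynomial ℝ) ^ n c).coeff d

open Classical in
/-- The logarithm of the Euler factor at `v` of `L(H ^ d (V) ⊗ M, s + (d + w) / 2)` for a motive `M` of weight `w` for which `ψ v k` is
the trace of the `k`-th power of the normalised Frobenius automorphism at `v`: the sum, over `k ≥ 1`, of the numbers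
`trace n l d k v u * ψ v k * (N v) ^ (-k s) / k`; it is `0` if one of the curves does not have a smooth reduction modulo `v`. -/
noncomputable def logFactor {N : ℕ} (n : Fin N → ℕ) (l d : ℕ) {D : ℕ} (u : Fin N → Fin D → 𝓞 K) (ψ : HeightOneSpectrum (𝓞 K) → ℕ → ℂ) (s : ℂ)
    (v : HeightOneSpectrum (𝓞 K)) : ℂ :=
  if Good l v u then
    ∑' k : ℕ, (trace n l d (k + 1) v u : ℂ) * (ψ v (k + 1) * ((Ideal.absNorm v.asIdeal : ℕ) : ℂ) ^ (-(((k : ℂ) + 1) * s)) / ((k : ℂ) + 1))
  else 0

/-- The logarithm of the L-function, for `Re s > 1`: the sum over all prime ideals. -/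
noncomputable def logL {N : ℕ} (n : Fin N → ℕ) (l d : ℕ) {D : ℕ} (u : Fin N → Fin D → 𝓞 K) (ψ : HeightOneSpectrum (𝓞 K) → ℕ → ℂ) (s : ℂ) : ℂ :=
  ∑' v : HeightOneSpectrum (𝓞 K), logFactor n l d u ψ s v

open Classical in
/-- The logarithm of the product of the Euler factors at the prime ideals of norm at most `T` (a finite product). -/
noncomputable def logP {N : ℕ} (n : Fin N → ℕ) (l d : ℕ) {D : ℕ} (u : Fin N → Fin D → 𝓞 K) (ψ : HeightOneSpectrum (𝓞 K) → ℕ → ℂ) (T : ℕ)
    (s : ℂ) : ℂ :=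
  ∑' v : HeightOneSpectrum (𝓞 K), if Ideal.absNorm v.asIdeal ≤ T then logFactor n l d u ψ s v else 0

end

/-- For all odd `d ≤ 2 dim V`, all `ψ ∈ Ψ` and all complex numbers `s` with `Re s ≥ 1 / 2 + δ` and `|Im s| ≤ Y ^ B`: the finite
Euler products over the prime ideals of norm at most `T`, for all `Y ≤ T ≤ exp (c R)`, are equal up to the factor
`exp(O(Y ^ (-δ / 4)))`, and if moreover `c (Re s - 1) R ≥ 1` then the L-function itself is, up to the factor
`exp(O(Y ^ (-δ / 4) + C exp (- c (Re s - 1) R)))`, equal to the product of the Euler factors at the prime ideals of norm at most `Y`. -/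
def RightHalf {K : Type} [Field K] [NumberField K] {g : ℕ} (ω : Fin g → 𝓞 K) (l D : ℕ) {N : ℕ} (n : Fin N → ℕ) (δ c C : ℝ) (B R Y : ℕ)
    (Ψ : Set (HeightOneSpectrum (𝓞 K) → ℕ → ℂ)) (m : Fin (N * D * g) → ℕ) : Prop :=
  ∀ d ≤ 2 * ∑ c, n c, Odd d → ∀ ψ ∈ Ψ, ∀ s : ℂ, 1 / 2 + δ ≤ s.re → |s.im| ≤ (Y : ℝ) ^ B →
    let u : Fin N → Fin D → 𝓞 K := fun e k => coeff ω m (finProdFinEquiv (e, k))
    (∀ T : ℕ, Y ≤ T → (T : ℝ) ≤ Real.exp (c * R) → ‖logP n l d u ψ T s - logP n l d u ψ Y s‖ ≤ (Y : ℝ) ^ (-(δ / 4))) ∧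
    (1 < s.re → 1 ≤ c * ((s.re - 1) * R) →
      ‖logL n l d u ψ s - logP n l d u ψ Y s‖ ≤ (Y : ℝ) ^ (-(δ / 4)) + C * Real.exp (-(c * ((s.re - 1) * R))))

/-- The digit number `i` (counted from the right, beginning with `0`) of `n` in base `b`. -/
def digit (b i n : ℕ) : ℕ := n / b ^ i % b

/-- The number which arises from the number `N` with at most `L` digits in base `b`, if for every `i ∈ S`
the digit number `i` is replaced by `f i`. -/
def change (b L N : ℕ) (f : ℕ → ℕ) (S : Finset ℕ) : ℕ :=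
  ∑ i ∈ range L, (if i ∈ S then f i else digit b i N) * b ^ i

open Classical in
/-- The number of the choices of `r j` of `L j` positions for all `j` for which the tuple of the numbers obtained by
changing the digits of the `N j` at the chosen positions (according to `f j`) does not have the property `E`. -/
noncomputable def exceptions {d : ℕ} (b : ℕ) (L r N : Fin d → ℕ) (f : Fin d → ℕ → ℕ) (E : (Fin d → ℕ) → Prop) : ℕ :=
  ((Fintype.piFinset (fun j => powersetCard (r j) (range (L j)))).filter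
    (fun S => ¬ E (fun j => change b (L j) (N j) (f j) (S j)))).card

lemma exc_eq {d : ℕ} (b : ℕ) (L r N : Fin d → ℕ) (f : Fin d → ℕ → ℕ) (E : (Fin d → ℕ) → Prop) :
    exceptions b L r N f E = Pool.Agent.Y57.FD.exceptions b L r N f E := rfl

lemma a_eq (F : Type) [Field F] (l : ℕ) {D : ℕ} (u : Fin D → F) : a F l u = Pool.Agent.N842.SQ.val F l u := by
  classical
  unfold a Pool.Agent.N842.SQ.val
  by_cases h : Smooth F l u
  · rw [if_pos h, if_pos (show Pool.Agent.N842.SQ.Smooth F l u from h)]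
    congr 1
    show (Nat.card F : ℝ) + 1 - ((Pool.Agent.N842.SQ.points F l u : ℝ) + 1) = _
    ring
  · rw [if_neg h, if_neg (show ¬ Pool.Agent.N842.SQ.Smooth F l u from h)]

section
variable {K : Type} [Field K] [NumberField K]

attribute [local instance] Pool.Agent.N842.SQ.rsFin Pool.Agent.N842.SQ.exFin

lemma t_eq (l k : ℕ) (hk : k ≠ 0) (v : HeightOneSpectrum (𝓞 K)) {D : ℕ} (u : Fin D → 𝓞 K) :
    t l k v u = - Pool.Agent.N842.SQ.A l D k (Pool.Agent.N842.SQ.Rs v) (fun i => Pool.Agent.N842.SQ.rh v (u i)) := by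
  obtain ⟨p, f, hp, hf, hpf, hpv⟩ := Pool.Agent.N842.HS.res_char v
  have hp' : Fact p.Prime := ⟨hp⟩
  have hch : CharP (Pool.Agent.N842.SQ.Rs v) p := Pool.Agent.N842.SQ.rsChar p ⟨v, hpv⟩
  have hch2 : CharP (Pool.Agent.N842.SQ.Ex (Pool.Agent.N842.SQ.Rs v) k) p :=
    charP_of_injective_algebraMap (algebraMap (Pool.Agent.N842.SQ.Rs v) (Pool.Agent.N842.SQ.Ex (Pool.Agent.N842.SQ.Rs v) k)).injective p
  have h1 := Pool.Agent.N842.SQ.val_hom p (Pool.Agent.N842.SQ.Rs v) (Pool.Agent.N842.SQ.Ex (Pool.Agent.N842.SQ.Rs v) k)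
    (algebraMap (Pool.Agent.N842.SQ.Rs v) (Pool.Agent.N842.SQ.Ex (Pool.Agent.N842.SQ.Rs v) k)) l (fun i => Pool.Agent.N842.SQ.rh v (u i))
  have h2 : Pool.Agent.N842.SQ.dg p (Pool.Agent.N842.SQ.Ex (Pool.Agent.N842.SQ.Rs v) k) / Pool.Agent.N842.SQ.dg p (Pool.Agent.N842.SQ.Rs v) = k := by
    have h3 := (Pool.Agent.N842.SQ.card_dg p (Pool.Agent.N842.SQ.Rs v))
    have h4 := (Pool.Agent.N842.SQ.card_dg p (Pool.Agent.N842.SQ.Ex (Pool.Agent.N842.SQ.Rs v) k)).1
    rw [Pool.Agent.N842.SQ.card_ex _ k hk, h3.1, ← pow_mul] at h4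
    rw [← Nat.pow_right_injective hp.two_le h4]
    exact Nat.mul_div_cancel_left _ (by omega)
  rw [h2] at h1
  rw [← h1]
  unfold t
  rw [a_eq]
  rfl

lemma factor_eq {N : ℕ} (n : Fin N → ℕ) (l d : ℕ) {D : ℕ} (c : Fin (N * D) → 𝓞 K) (ψ : HeightOneSpectrum (𝓞 K) → ℕ → ℂ) (s : ℂ)
    (v : HeightOneSpectrum (𝓞 K)) :
    logFactor n l d (fun (e : Fin N) (k : Fin D) => c (finProdFinEquiv (e, k))) ψ s v = Pool.Agent.N842.TQ.lf n l d c ψ s v := by
  unfold logFactor Pool.Agent.N842.TQ.lf
  by_cases h : Good l v (fun (e : Fin N) (k : Fin D) => c (finProdFinEquiv (e, k)))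
  · rw [if_pos h]
    refine tsum_congr fun k => ?_
    have h' : Pool.Agent.N842.TP.good l v c := h
    unfold Pool.Agent.N842.TQ.To Pool.Agent.N842.TQ.tC
    rw [if_pos h']
    congr 2
    unfold trace Pool.Agent.N842.TP.Pl
    congr 1
    refine prod_congr rfl fun e _ => ?_
    rw [t_eq l (k + 1) (by omega) v]
  · rw [if_neg h]
    have h' : ¬ Pool.Agent.N842.TP.good l v c := h
    unfold Pool.Agent.N842.TQ.To
    simp only [if_neg h', Complex.ofReal_zero, zero_mul, tsum_zero]

lemma logL_eq {N : ℕ} (n : Fin N → ℕ) (l d : ℕ) {D : ℕ} (c : Fin (N * D) → 𝓞 K) (ψ : HeightOneSpectrum (𝓞 K) → ℕ → ℂ) (s : ℂ) :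
    logL n l d (fun (e : Fin N) (k : Fin D) => c (finProdFinEquiv (e, k))) ψ s = ∑' v : HeightOneSpectrum (𝓞 K), Pool.Agent.N842.TQ.lf n l d c ψ s v :=
  tsum_congr fun v => factor_eq n l d c ψ s v

lemma logP_eq {N : ℕ} (n : Fin N → ℕ) (l d : ℕ) {D : ℕ} (c : Fin (N * D) → 𝓞 K) (ψ : HeightOneSpectrum (𝓞 K) → ℕ → ℂ) (T : ℕ) (s : ℂ) :
    logP n l d (fun (e : Fin N) (k : Fin D) => c (finProdFinEquiv (e, k))) ψ T s =
      ∑ v ∈ Pool.Agent.N842.HS.VT K T, Pool.Agent.N842.TQ.lf n l d c ψ s v := by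
  unfold logP
  rw [tsum_eq_sum (s := Pool.Agent.N842.HS.VT K T)]
  · refine sum_congr rfl fun v hv => ?_
    rw [Pool.Agent.N842.HS.mem_VT] at hv
    rw [if_pos hv, factor_eq]
  · intro v hv
    rw [Pool.Agent.N842.HS.mem_VT] at hv
    rw [if_neg hv]

end

/-- Let `K` be a number field, `l` a prime number, `D` a degree prime to `l`, `ω_0, ..., ω_(g-1)` elements of `𝓞 K` with `1` in the
group generated by them, let `n_c ≤ D` (`c < N`), a base `b ≥ 2`, `0 < δ ≤ 1 / 2`, `ρ > 0` and integers `A, B ≥ 0` be given, let `N D g ≥ 1`.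
There are `c > 0`, `C ≥ 0` and `y₀` such that for all integers `R`, `r j`, `L j` (`j < N D g`), `Y` with `R ≤ r j ≤ L j / 2` and
`Y ≥ y₀` the following holds.

Let `0 ≤ N' j < b ^ L j` be arbitrary integers, prescribe for every position `i` a digit `f j i` different from the digit of
`N' j` in base `b`, and let `Ψ` be an arbitrary set of at most `Y ^ B` systems `ψ` of complex numbers `ψ v k` with `|ψ v k| ≤ ρ` (for
instance the traces of the powers of the normalised Frobenius automorphisms for motives over `K` of rank at most `ρ`, or only the number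
`1`).  If one chooses `r j` of the `L j` positions and replaces the digits of `N' j` at these positions, then for all but at most a
proportion `1 / Y ^ A` of the choices the product `V` of the powers `n_c` of the `N` curves `Y ^ l = f_c(X)` over `K` given by the numbers
`m j` obtained has the property `RightHalf`: for all odd `d ≤ 2 dim V`, `ψ ∈ Ψ`, `Re s ≥ 1 / 2 + δ`, `|Im s| ≤ Y ^ B` the Euler products
of `L(H ^ d (V) ⊗ M, s + (d + w) / 2)` over the prime ideals of norm at most `T` differ for `Y ≤ T ≤ exp (c R)` at most by the factor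
`exp(O(Y ^ (-δ / 4)))` from the one for `T = Y`, and the L-function itself does so for `Re s > 1`, `c (Re s - 1) R ≥ 1` up to the factor
`exp(O(Y ^ (-δ / 4) + C exp (- c (Re s - 1) R)))`. -/
theorem result (K : Type) [Field K] [NumberField K] (g l D N b : ℕ) (ω : Fin g → 𝓞 K)
    (hω : (1 : 𝓞 K) ∈ Submodule.span ℤ (Set.range ω)) (hl : l.Prime) (hD : Nat.Coprime D l)
    (hd : 1 ≤ N * D * g) (hb : 2 ≤ b) (n : Fin N → ℕ) (hn : ∀ c, n c ≤ D) (δ : ℝ) (hδ0 : 0 < δ) (hδ1 : δ ≤ 1 / 2) (ρ : ℝ) (hρ : 0 < ρ)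
    (A B : ℕ) : ∃ c : ℝ, 0 < c ∧ ∃ C : ℝ, 0 ≤ C ∧ ∃ y₀ : ℕ, ∀ (L r : Fin (N * D * g) → ℕ) (R Y : ℕ), (∀ j, R ≤ r j ∧ 2 * r j ≤ L j) → y₀ ≤ Y →
    ∀ N' : Fin (N * D * g) → ℕ, (∀ j, N' j < b ^ L j) →
    ∀ f : Fin (N * D * g) → ℕ → ℕ, (∀ j i, f j i < b ∧ f j i ≠ digit b i (N' j)) →
    ∀ Ψ : Set (HeightOneSpectrum (𝓞 K) → ℕ → ℂ), Ψ.Finite → Ψ.ncard ≤ Y ^ B → (∀ ψ ∈ Ψ, ∀ v k, ‖ψ v k‖ ≤ ρ) →
      (exceptions b L r N' f (RightHalf ω l D n δ c C B R Y Ψ) : ℝ) ≤ 1 / (Y : ℝ) ^ A * ∏ j, ((L j).choose (r j) : ℝ) := by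
  classical
  obtain ⟨c, hc, C, hC, y₀, h⟩ := Pool.Agent.N842.TQ.genO2 K b g l N D ω hω hl hD hb hd n hn δ hδ0 hδ1 ρ hρ A B (2 * ∑ c, n c)
  refine ⟨c, hc, C, hC, y₀, fun L r R Y hrL hY N' hN' f hf Ψ hΨ hΨ2 hΨ1 => ?_⟩
  rw [exc_eq]
  refine h L r R Y hrL hY N' hN' f hf Ψ hΨ hΨ2 hΨ1 _ fun m hm d hd2 hdo ψ hψ s hs hτ => ?_
  have h1 := hm d hd2 hdo ψ hψ s hs hτ
  have hu : (fun (e : Fin N) (k : Fin D) => coeff ω m (finProdFinEquiv (e, k))) =
      fun (e : Fin N) (k : Fin D) => Pool.Agent.N842.HS.cf (D := N * D) ω m (finProdFinEquiv (e, k)) := rfl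
  simp only [hu, logL_eq, logP_eq]
  exact h1

end Pool.Agent.Results.MP_bf61d2_nt.RightOfTheCriticalLine
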