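import Pool.Agent.N19.BR.FE

/-!
# The Hasse-Weil functional equation for semistable elliptic curves: reduction to fields with
hyperelementary Galois action, large local degrees and at most two real places

`K` is a number field, `L` a finite Galois extension of `K` and `S` a finite set of primes of `K`.

The proof.  There is a relation `∑ e_j [F_j] = [K]`, with coefficient `1` on the right, between the
permutation characters of finite extensions `F_j` of `K` with the properties below.  The proof uses this
relation at all places, ramified primes included.

* At a prime `v` of `K` let `φ` be a homomorphism from `𝓞 K` to a finite field `k` with kernel `v`.  The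
  number of the extensions of `φ` to `𝓞 F_j → k` is the mean value of the number of the fixed points on the
  embeddings of `F_j` over a coset of an inertia group, so `∑ e_j #{extensions to F_j} = 1`, and
  `∑ e_j ∑_{w | v} g(f(w|v)) = g(1)` for every function `g`.  Semistable models stay minimal in all finite
  extensions, so the Euler factor of `E` at `w` (good or bad), the conductor and the split multiplicative
  primes depend on `f(w|v)` only.  Hence `L(E / K, s) = ∏ L(E / F_j, s) ^ e_j` exactly.
* The same relation for the discriminants `|Δ|` follows from Hilbert's formula
  `𝔇_{L/F} = ∏_{σ ≠ 1} (σ x - x : x ∈ 𝓞 L)` for the different of a Galois extension.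
* Complex conjugations give the relation between the numbers of archimedean places.

The definitions are in `Pool.Agent.N19.BR.FDefs` and `Pool.Agent.N19.BR.Defs`; a `Pool.Agent.R433.MD.Ext K`
is a number field with the structure of a `K`-algebra.
-/

set_option autoImplicit false

namespace Pool.Agent.Results.MP_bf61d2_nt.SemistableFunctionalEquation

open NumberField IsDedekindDomain
open Pool.Agent.R433.MD (Ext)
open Pool.Agent.N19.BR.Def Pool.Agent.N19.BR.FDef

/-- **The functional equation for semistable elliptic curves.**  Let `L/K` be a finite Galois extension of
number fields, `S` a finite set of primes of `K` and `n ≥ 1`.  There is a finite list of number fields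
`F ⊇ K` such that for every `F` in the list there is a prime number `p` for which the Galois group of
`L F / F` is `p`-hyperelementary, the divisors of `n` prime to `p` divide the local degrees of `F / K` at the
primes above `S`, and `F` has at most two real places if `p ≠ 2`, and such that the following holds for ALL
semistable elliptic curves `E` over `K`: if for all `F` in the list `L(E / F, s)` has a meromorphic
continuation with the functional equation `w L*(s) = L*(2 - s)`, `w` the root number of `E / F` and
`L*(s) = (|Δ_F|² N(f_{E/F}))^{s/2} π^{-ds} (Γ(s/2) Γ((s+1)/2))^d L(E / F, s)`, `d = [F : ℚ]`, then the same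
is true over `K`. -/
theorem result (K : Type) [Field K] [NumberField K] (L : Type) [Field L] [NumberField L]
    [Algebra K L] [IsGalois K L] (S : Set (HeightOneSpectrum (𝓞 K))) (hS : S.Finite) (n : ℕ)
    (hn : n ≠ 0) :
    ∃ (r : ℕ) (Z : Fin r → Ext K), (∀ j, HyperelementaryClass L S n (Z j)) ∧
      ∀ E : WeierstrassCurve K, E.IsElliptic → Semistable E →
        (∀ j, HasseWeil (E.map (algebraMap K (Z j).F))) → HasseWeil E := by
  obtain ⟨r, Z, e, hrel, hZ⟩ := Pool.Agent.N19.BR.list_hyper K L hS hn
  exact ⟨r, Z, hZ, fun E hE hs h => Pool.Agent.N19.BR.hasseWeil_of_rel hrel hE hs h⟩

end Pool.Agent.Results.MP_bf61d2_nt.SemistableFunctionalEquation
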